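import Pool.Agent.L7h7.HP.Main
import Pool.Agent.L7h75.HP.Drift
import Pool.Agent.L7h21.HP.Comb
import Pool.Agent.L7h37.HP.Mass

/-!
# The maximum likelihood estimator of the hierarchical preferential attachment model is not consistent

The model of the problem with `K = 2` labels. Take the probabilities `p`, `1 - p` and the affinities
`γ = (1 + ρ (1 - p)/p, 1 - ρ; 1 - ρ, 1 + ρ p/(1 - p))`, that is, `γ i j = 1 + ρ φ i φ j` for the function `φ` of the label
with mean `0` and variance `1` (every label has the same mean affinity to a random label: the balanced case).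

Theorem. For every `ε` in `(0, 1/2)` there is a `ρ₀ > 0` such that for all `0 < ρ ≤ ρ₀`:

* the parameters `(p, ρ)`, `p` in `[ε, 1/2]`, are identifiable;
* for all `p`, `p'` in `[ε, 1/2]` the laws of the observed history of the first `n` nodes under `(p, ρ)` and `(p', ρ)` have
  total variation distance at most `1/4`, for ALL `n` (the sum of the absolute differences is at most `1/2`);
* for every estimator (an arbitrary function of the history), all `p < p'` in `[ε, 1/2]` and every `n` the two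
  probabilities that it is not `δ`-close to the truth (modulo relabelling and scaling) have a sum of at least `1/2`, if
  `7 δ ≤ p' (1 - p') - p (1 - p)`;
* so for every estimator, in particular for every maximum likelihood estimator, the set of the `p` in `[ε, 1/2]` for which
  it converges in probability (or almost surely) to the true parameter modulo relabelling and scaling has at most one
  element.

Proof. Identifiability: the limits of `n P(the node n has a loop)` and of `n P(n + 1 links to n)` force the other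
parameter to be balanced with the same `ρ`; the probability that the second node has a loop is a strictly monotone
function of `p (1 - p)`. Total variation: the second moment of the likelihood ratio with respect to the law with one
label and loops of weight `1 + ρ` is at most `exp (C ρ)` for all `n`: in the two-replica process the three sums of
`d(v) φ(l_v)`, `d(v) φ(l'_v)`, `d(v) φ(l_v) φ(l'_v)` have the size `n^(1/2)`, the mass of one step is `1 + O(ρ² |X|³/n³)`,
and this is controlled by the function `exp (ρ ∑ |X|³/n²)`.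
-/

set_option autoImplicit false

open Finset Filter Topology MeasureTheory

namespace Pool.Agent.Results.MP_7e57c2_pr.MleInconsistent

open Pool.Agent.L7h7.HP

open Classical in
theorem exists_mle (K : ℕ) : ∃ T : Est K, IsMLE T := by
  refine ⟨fun n h => if H : ∃ τ : Param K, ∀ τ' : Param K, Gn τ' h ≤ Gn τ h then (H.choose.pr, H.choose.ga) else
    (fun _ => 0, fun _ _ => 0), fun n h H => ⟨H.choose, ?_, H.choose_spec⟩⟩
  exact dif_pos H

open Classical in
/-- **Theorem.** See the header. -/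
theorem result (ε : ℝ) (hε : 0 < ε) (hε' : ε < 1 / 2) :
    ∃ ρ₀ : ℝ, 0 < ρ₀ ∧ ρ₀ < 1 ∧ ∀ ρ : ℝ, 0 < ρ → ρ ≤ ρ₀ → ∃ θ : ℝ → Param 2,
      -- the parameters, all identifiable
      (∀ p ∈ Set.Icc ε (1 / 2), (θ p).pr = ![p, 1 - p] ∧
        (θ p).ga = ![![1 + ρ * ((1 - p) / p), 1 - ρ], ![1 - ρ, 1 + ρ * (p / (1 - p))]] ∧ IsIdentifiable (θ p)) ∧
      -- the laws of the history are close, uniformly in `n`
      (∀ p ∈ Set.Icc ε (1 / 2), ∀ p' ∈ Set.Icc ε (1 / 2), ∀ n : ℕ,
        ∑ h : Hist n, |Gn (θ p) h - Gn (θ p') h| ≤ 1 / 2) ∧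
      -- the sum of the two error probabilities of an estimator
      (∀ T : Est 2, ∀ p p' δ : ℝ, ε ≤ p → p < p' → p' ≤ 1 / 2 → 0 < δ → 7 * δ ≤ p' * (1 - p') - p * (1 - p) → ∀ n : ℕ,
        (1 / 2 : ℝ) ≤ (∑ h : Hist n, if Close δ (T n h) (θ p) then 0 else Gn (θ p) h) +
          ∑ h : Hist n, if Close δ (T n h) (θ p') then 0 else Gn (θ p') h) ∧
      -- convergence in probability for at most one `p`
      (∀ T : Est 2, {p : ℝ | p ∈ Set.Icc ε (1 / 2) ∧ ConvProb T (θ p)}.Subsingleton) ∧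
      -- almost sure convergence for at most one `p`
      (∀ T : Est 2, {p : ℝ | p ∈ Set.Icc ε (1 / 2) ∧ ∃ (Ω : Type) (m : MeasurableSpace Ω) (μ : Measure Ω) (X : Ω → IHist),
        IsHPAM (θ p) μ X ∧ ConvAS T (θ p) μ X}.Subsingleton) ∧
      -- the maximum likelihood estimator
      (∃ T : Est 2, IsMLE T) ∧ ∀ T : Est 2, IsMLE T → ∃ p ∈ Set.Icc ε (1 / 2), IsIdentifiable (θ p) ∧ ¬ ConvProb T (θ p) := by
  obtain ⟨ρ₀, h1, h2, h3⟩ := main Pool.Agent.L7h37.HP.s_MASS Pool.Agent.L7h75.HP.s_DRIFT Pool.Agent.L7h21.HP.s_COMB ε hε hε'.le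
  refine ⟨ρ₀, h1, h2, fun ρ hρ hρ0 => ?_⟩
  have hρ1 : ρ < 1 := lt_of_le_of_lt hρ0 h2
  let τ : Param 2 := bal (1 / 2) ρ (by norm_num) (by norm_num) hρ hρ1
  have key : ∀ p : ℝ, p ∈ Set.Icc ε (1 / 2) → 0 < p ∧ p < 1 := fun p h => ⟨by linarith [h.1], by linarith [h.2]⟩
  let θ : ℝ → Param 2 := fun p => if h : 0 < p ∧ p < 1 then bal p ρ h.1 h.2 hρ hρ1 else τ
  have hθ : ∀ p (h : p ∈ Set.Icc ε (1 / 2)), θ p = bal p ρ (key p h).1 (key p h).2 hρ hρ1 := fun p h => dif_pos (key p h)
  have hb : ∀ p, p ∈ Set.Icc ε (1 / 2) → IsBal (θ p) p ρ := fun p h => by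
    rw [hθ p h]
    exact bal_isBal p ρ _ _ hρ hρ1
  have hid : ∀ p, p ∈ Set.Icc ε (1 / 2) → IsIdentifiable (θ p) := fun p h =>
    (isIdentifiable_iff _).2 (id_all _ p ρ (hb p h))
  have m3 : ∀ p p' : ℝ, ε ≤ p → p < p' → p' ≤ 1 / 2 → (∀ n : ℕ, ∑ h : Hist n, |Gn (θ p) h - Gn (θ p') h| ≤ 1 / 2) ∧
      ∀ T : Est 2, ¬ (ConvProb T (θ p) ∧ ConvProb T (θ p')) := by
    intro p p' hp hpp hp'
    exact (h3 ρ hρ hρ0 _ _ p p' (hb p ⟨hp, by linarith⟩) (hb p' ⟨by linarith, hp'⟩) hp hpp hp').2.2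
  have hsub : ∀ T : Est 2, ∀ p ∈ Set.Icc ε (1 / 2), ∀ p' ∈ Set.Icc ε (1 / 2), ConvProb T (θ p) → ConvProb T (θ p') →
      p = p' := by
    intro T p hp p' hp' c c'
    rcases lt_trichotomy p p' with h | h | h
    · exact absurd ⟨c, c'⟩ ((m3 p p' hp.1 h hp'.2).2 T)
    · exact h
    · exact absurd ⟨c', c⟩ ((m3 p' p hp'.1 h hp.2).2 T)
  refine ⟨θ, fun p hp => ⟨?_, ?_, hid p hp⟩, ?_, ?_, ?_, ?_, exists_mle 2, ?_⟩
  · rw [hθ p hp]
    rfl
  · rw [hθ p hp]
    rfl
  · intro p hp p' hp' n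
    rcases lt_trichotomy p p' with h | h | h
    · exact (m3 p p' hp.1 h hp'.2).1 n
    · rw [h]
      simp
    · have := (m3 p' p hp'.1 h hp.2).1 n
      simp only [abs_sub_comm] at this ⊢
      exact this
  · intro T p p' δ hp hpp hp' hδ hδD n
    have k1 := hb p ⟨hp, by linarith⟩
    have k2 := hb p' ⟨by linarith, hp'⟩
    have tv := (m3 p p' hp hpp hp').1
    refine err_sum hδ ?_ ?_ ?_ T n
    · have := k1.hp
      have := k1.hp'
      nlinarith [sq_nonneg (p' - 1 / 2), mul_pos k1.hp (sub_pos.2 k1.hp')]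
    · rw [k1.pr0, k2.pr0, bal_pr1 k1, bal_pr1 k2, abs_sub_comm, abs_of_pos (sub_pos.2 (prod_ne hpp hp'))]
      exact hδD
    · simp only [Gn_eq] at tv
      exact tv
  · intro T p hp p' hp'
    exact hsub T p hp.1 p' hp'.1 hp.2 hp'.2
  · rintro T p ⟨hp, Ω, m, μ, X, hX, hT⟩ p' ⟨hp', Ω', m', μ', X', hX', hT'⟩
    exact hsub T p hp p' hp' (ConvProb_of_AS T _ μ X hX hT) (ConvProb_of_AS T _ μ' X' hX' hT')
  · intro T _
    by_contra hcon
    push Not at hcon
    have e1 := hcon ε ⟨le_rfl, hε'.le⟩ (hid ε ⟨le_rfl, hε'.le⟩)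
    have e2 := hcon (1 / 2) ⟨hε'.le, le_rfl⟩ (hid _ ⟨hε'.le, le_rfl⟩)
    have := hsub T ε ⟨le_rfl, hε'.le⟩ (1 / 2) ⟨hε'.le, le_rfl⟩ e1 e2
    linarith

end Pool.Agent.Results.MP_7e57c2_pr.MleInconsistent
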